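import Mathlib

/-!
Linear algebra for `MP_c8969c_ag`: a filtered vector space of growth `n` on which a Lie algebra `g` of
operators acts, such that `g` has rank at most `r` modulo the operators which preserve the filtration,
is generated by a finite step of the filtration only if `n ≤ r`.
-/

set_option autoImplicit false

namespace Pool.Agent.Helper25.DAF

open Module

section
variable {k V : Type*} [Field k] [AddCommGroup V] [Module k V]

/-- products of at most `m` elements of `g` applied to `F` -/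
def UU (g : Submodule k (Module.End k V)) (F : Submodule k V) : ℕ → Submodule k V
  | 0 => F
  | m + 1 => UU g F m ⊔ Submodule.span k {y | ∃ a ∈ g, ∃ x ∈ UU g F m, y = a x}

variable {g T : Submodule k (Module.End k V)} {F F' : Submodule k V}

theorem UU_succ (m : ℕ) : UU g F m ≤ UU g F (m + 1) := le_sup_left

theorem UU_mono {m m' : ℕ} (h : m ≤ m') : UU g F m ≤ UU g F m' :=
  monotone_nat_of_le_succ (fun m => UU_succ (g := g) (F := F) m) h

theorem UU_act {a : Module.End k V} (ha : a ∈ g) {m : ℕ} {x : V} (hx : x ∈ UU g F m) :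
    a x ∈ UU g F (m + 1) :=
  (le_sup_right : _ ≤ UU g F (m + 1)) (Submodule.subset_span ⟨a, ha, x, hx, rfl⟩)

theorem UU_le (W : ℕ → Submodule k V) (h0 : F ≤ W 0) (h1 : ∀ m, W m ≤ W (m + 1))
    (h2 : ∀ m, ∀ a ∈ g, ∀ x ∈ W m, a x ∈ W (m + 1)) (m : ℕ) : UU g F m ≤ W m := by
  induction m with
  | zero => exact h0
  | succ m ih =>
    refine sup_le (ih.trans (h1 m)) (Submodule.span_le.2 ?_)
    rintro y ⟨a, ha, x, hx, rfl⟩
    exact h2 m a ha x (ih hx)

theorem UU_mono_F (h : F ≤ F') (m : ℕ) : UU g F m ≤ UU g F' m :=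
  UU_le (fun m => UU g F' m) h (fun m => UU_succ m) (fun _ _ ha _ hx => UU_act ha hx) m

theorem UU_add (c m : ℕ) : UU g (UU g F c) m ≤ UU g F (c + m) :=
  UU_le (fun m => UU g F (c + m)) le_rfl (fun m => UU_succ (c + m))
    (fun _ _ ha _ hx => UU_act ha hx) m

/-- local derivations -/
theorem UU_theta (hT : ∀ a ∈ T, ∀ b ∈ g, a * b - b * a ∈ T)
    (hTF : ∀ a ∈ T, ∀ x ∈ F, a x ∈ F') (m : ℕ) :
    ∀ a ∈ T, ∀ x ∈ UU g F m, a x ∈ UU g F' m := by
  induction m with
  | zero => exact hTF
  | succ m ih =>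
    intro a ha
    have h : UU g F (m + 1) ≤ (UU g F' (m + 1)).comap a := by
      refine sup_le ?_ (Submodule.span_le.2 ?_)
      · intro x hx
        exact UU_succ m (ih a ha x hx)
      · rintro y ⟨b, hb, x, hx, rfl⟩
        have h1 : a (b x) = b (a x) + (a * b - b * a) x := by
          rw [LinearMap.sub_apply, Module.End.mul_apply, Module.End.mul_apply]
          abel
        change a (b x) ∈ UU g F' (m + 1)
        rw [h1]
        exact Submodule.add_mem _ (UU_act hb (ih a ha x hx))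
          (UU_succ m (ih _ (hT a ha b hb) x hx))
    intro x hx
    exact h hx

/-! ### words -/

variable {r : ℕ} (v : Fin r → Module.End k V)

/-- words of length at most `m` applied to `F` -/
def WW (F : Submodule k V) (m : ℕ) : Submodule k V :=
  Submodule.span k {y | ∃ l : List (Fin r), l.length ≤ m ∧ ∃ f ∈ F, y = (l.map v).prod f}

variable {v}

theorem WW_mono {m m' : ℕ} (h : m ≤ m') : WW v F m ≤ WW v F m' := by
  refine Submodule.span_mono ?_
  rintro y ⟨l, hl, f, hf, rfl⟩
  exact ⟨l, hl.trans h, f, hf, rfl⟩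

theorem WW_word (l : List (Fin r)) {m : ℕ} (hl : l.length ≤ m) {f : V} (hf : f ∈ F) :
    (l.map v).prod f ∈ WW v F m := Submodule.subset_span ⟨l, hl, f, hf, rfl⟩

theorem WW_F (m : ℕ) : F ≤ WW v F m := fun _ hf => WW_word [] (Nat.zero_le m) hf

theorem WW_zero : WW v F 0 ≤ F := by
  refine Submodule.span_le.2 ?_
  rintro y ⟨l, hl, f, hf, rfl⟩
  have h : l = [] := List.eq_nil_of_length_eq_zero (Nat.le_zero.1 hl)
  subst h
  exact hf

theorem WW_v (i : Fin r) (m : ℕ) : ∀ x ∈ WW v F m, v i x ∈ WW v F (m + 1) := by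
  have h : WW v F m ≤ (WW v F (m + 1)).comap (v i) := by
    refine Submodule.span_le.2 ?_
    rintro y ⟨l, hl, f, hf, rfl⟩
    exact WW_word (i :: l) (by simpa using hl) hf
  exact fun x hx => h hx

/-- if `g` has rank `≤ r` modulo the operators preserving `F` -/
def Sp (g : Submodule k (Module.End k V)) (F : Submodule k V) (v : Fin r → Module.End k V) :
    Prop :=
  ∀ a ∈ g, ∃ c : Fin r → k, ∀ x ∈ F, (a - ∑ i, c i • v i) x ∈ F

theorem WW_g (hg : ∀ a ∈ g, ∀ b ∈ g, a * b - b * a ∈ g) (hv : ∀ i, v i ∈ g)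
    (hsp : Sp g F v) (m : ℕ) :
    (∀ a ∈ g, (∀ x ∈ F, a x ∈ F) → ∀ x ∈ WW v F m, a x ∈ WW v F m) ∧
      ∀ a ∈ g, ∀ x ∈ WW v F m, a x ∈ WW v F (m + 1) := by
  have key : (∀ a ∈ g, (∀ x ∈ F, a x ∈ F) → ∀ x ∈ WW v F m, a x ∈ WW v F m) →
      ∀ a ∈ g, ∀ x ∈ WW v F m, a x ∈ WW v F (m + 1) := by
    intro hP a ha x hx
    obtain ⟨c, hc⟩ := hsp a ha
    have h0 : a - ∑ i, c i • v i ∈ g :=
      Submodule.sub_mem _ ha (Submodule.sum_mem _ fun i _ => Submodule.smul_mem _ _ (hv i))
    have h1 := WW_mono (Nat.le_succ m) (hP _ h0 hc x hx)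
    have h2 : (∑ i, c i • v i) x ∈ WW v F (m + 1) := by
      rw [LinearMap.sum_apply]
      refine Submodule.sum_mem _ fun i _ => ?_
      rw [LinearMap.smul_apply]
      exact Submodule.smul_mem _ _ (WW_v i m x hx)
    have h3 := Submodule.add_mem _ h1 h2
    rwa [LinearMap.sub_apply, sub_add_cancel] at h3
  suffices h : ∀ m, (∀ a ∈ g, (∀ x ∈ F, a x ∈ F) → ∀ x ∈ WW v F m, a x ∈ WW v F m) by
    exact ⟨h m, key (h m)⟩
  clear key
  intro m
  induction m with
  | zero =>
    intro a _ ha x hx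
    exact WW_F 0 (ha x (WW_zero hx))
  | succ m ih =>
    intro a ha haF
    have hQ : ∀ b ∈ g, ∀ x ∈ WW v F m, b x ∈ WW v F (m + 1) := by
      intro b hb x hx
      obtain ⟨c, hc⟩ := hsp b hb
      have h0 : b - ∑ i, c i • v i ∈ g :=
        Submodule.sub_mem _ hb (Submodule.sum_mem _ fun i _ => Submodule.smul_mem _ _ (hv i))
      have h1 := WW_mono (Nat.le_succ m) (ih _ h0 hc x hx)
      have h2 : (∑ i, c i • v i) x ∈ WW v F (m + 1) := by
        rw [LinearMap.sum_apply]
        refine Submodule.sum_mem _ fun i _ => ?_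
        rw [LinearMap.smul_apply]
        exact Submodule.smul_mem _ _ (WW_v i m x hx)
      have h3 := Submodule.add_mem _ h1 h2
      rwa [LinearMap.sub_apply, sub_add_cancel] at h3
    have h : WW v F (m + 1) ≤ (WW v F (m + 1)).comap a := by
      refine Submodule.span_le.2 ?_
      rintro y ⟨l, hl, f, hf, rfl⟩
      cases l with
      | nil => exact WW_F (m + 1) (haF f hf)
      | cons i l =>
        have hl' : l.length ≤ m := by simpa using hl
        have hz := WW_word (v := v) l hl' hf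
        have h1 : a (((i :: l).map v).prod f) = v i (a ((l.map v).prod f)) +
            (a * v i - v i * a) ((l.map v).prod f) := by
          rw [List.map_cons, List.prod_cons, LinearMap.sub_apply, Module.End.mul_apply,
            Module.End.mul_apply, Module.End.mul_apply]
          abel
        change a (((i :: l).map v).prod f) ∈ WW v F (m + 1)
        rw [h1]
        exact Submodule.add_mem _ (WW_v i m _ (ih a ha haF _ hz))
          (hQ _ (hg a ha (v i) (hv i)) _ hz)
    exact fun x hx => h hx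

theorem UU_WW (hg : ∀ a ∈ g, ∀ b ∈ g, a * b - b * a ∈ g) (hv : ∀ i, v i ∈ g)
    (hsp : Sp g F v) (m : ℕ) : UU g F m ≤ WW v F m :=
  UU_le (fun m => WW v F m) (WW_F 0) (fun m => WW_mono (Nat.le_succ m))
    (fun m => (WW_g hg hv hsp m).2) m

theorem WW_perm (hg : ∀ a ∈ g, ∀ b ∈ g, a * b - b * a ∈ g) (hv : ∀ i, v i ∈ g)
    (hsp : Sp g F v) {l l' : List (Fin r)} (h : l.Perm l') :
    ∀ f ∈ F, (l.map v).prod f - (l'.map v).prod f ∈ WW v F (l.length - 1) := by
  induction h with
  | nil =>
    intro f _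
    rw [sub_self]
    exact Submodule.zero_mem _
  | @cons x l1 l2 h12 ih =>
    intro f hf
    rw [List.map_cons, List.map_cons, List.prod_cons, List.prod_cons, Module.End.mul_apply,
      Module.End.mul_apply, ← map_sub]
    rcases Nat.eq_zero_or_pos l1.length with h0 | h0
    · have h1 : l1 = [] := List.eq_nil_of_length_eq_zero h0
      subst h1
      have h2 : l2 = [] := h12.nil_eq.symm
      subst h2
      rw [sub_self, map_zero]
      exact Submodule.zero_mem _
    · have h1 := WW_v x _ _ (ih f hf)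
      have h2 : l1.length - 1 + 1 = (x :: l1).length - 1 := by
        rw [List.length_cons]
        omega
      rwa [h2] at h1
  | swap x y l =>
    intro f hf
    have h1 := (WW_g hg hv hsp l.length).2 _ (hg (v y) (hv y) (v x) (hv x)) _
      (WW_word (v := v) l le_rfl hf)
    have h2 : ((y :: x :: l).map v).prod f - ((x :: y :: l).map v).prod f =
        (v y * v x - v x * v y) ((l.map v).prod f) := by
      simp only [List.map_cons, List.prod_cons, LinearMap.sub_apply, Module.End.mul_apply]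
    rw [h2]
    exact h1
  | @trans l1 l2 l3 h12 h23 ih1 ih2 =>
    intro f hf
    have h1 := ih2 f hf
    rw [← h12.length_eq] at h1
    have h2 := Submodule.add_mem _ (ih1 f hf) h1
    rwa [sub_add_sub_cancel] at h2

open Classical in
/-- a word with given multiplicities -/
noncomputable def can {m : ℕ} (β : Fin r → Fin (m + 1)) : List (Fin r) :=
  if h : ∃ l : List (Fin r), ∀ i, l.count i = β i then h.choose else []

theorem can_perm {m : ℕ} (β : Fin r → Fin (m + 1)) (l : List (Fin r))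
    (h : ∀ i, l.count i = β i) : l.Perm (can β) := by
  have h1 : ∃ l : List (Fin r), ∀ i, l.count i = β i := ⟨l, h⟩
  rw [List.perm_iff_count]
  intro i
  unfold can
  rw [dif_pos h1, h1.choose_spec i, h i]

/-- the words with given multiplicities, applied to `F` -/
noncomputable def Phi (v : Fin r → Module.End k V) (F : Submodule k V) (m : ℕ) :
    ((Fin r → Fin (m + 1)) → F) →ₗ[k] V :=
  ∑ β : Fin r → Fin (m + 1), (((can β).map v).prod ∘ₗ F.subtype) ∘ₗ LinearMap.proj β

theorem Phi_mem {m : ℕ} (β : Fin r → Fin (m + 1)) {f : V} (hf : f ∈ F) :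
    ((can β).map v).prod f ∈ LinearMap.range (Phi v F m) := by
  classical
  refine ⟨Pi.single β ⟨f, hf⟩, ?_⟩
  unfold Phi
  rw [LinearMap.sum_apply, Finset.sum_eq_single β]
  · simp
  · intro γ _ hγ
    simp [Pi.single_eq_of_ne hγ]
  · intro h
    exact absurd (Finset.mem_univ β) h

theorem WW_Phi (hg : ∀ a ∈ g, ∀ b ∈ g, a * b - b * a ∈ g) (hv : ∀ i, v i ∈ g)
    (hsp : Sp g F v) (m : ℕ) : ∀ j ≤ m, WW v F j ≤ LinearMap.range (Phi v F m) := by
  intro j
  induction j using Nat.strong_induction_on with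
  | _ j ih =>
    intro hj
    refine Submodule.span_le.2 ?_
    rintro y ⟨l, hl, f, hf, rfl⟩
    have hc : ∀ i, l.count i < m + 1 := fun i =>
      Nat.lt_succ_of_le ((List.count_le_length).trans (hl.trans hj))
    have hp := can_perm (fun i => (⟨l.count i, hc i⟩ : Fin (m + 1))) l (fun i => rfl)
    have h1 := Phi_mem (v := v) (F := F) (fun i => (⟨l.count i, hc i⟩ : Fin (m + 1))) hf
    have h2 := WW_perm hg hv hsp hp f hf
    rcases Nat.eq_zero_or_pos l.length with h0 | h0
    · have h3 : l = [] := List.eq_nil_of_length_eq_zero h0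
      have h4 : can (fun i => (⟨l.count i, hc i⟩ : Fin (m + 1))) = l := by
        have h5 := hp.length_eq
        rw [h0] at h5
        rw [List.eq_nil_of_length_eq_zero h5.symm, h3]
      rw [h4] at h1
      exact h1
    · have h3 := ih (l.length - 1) (by omega) (by omega) h2
      have h4 := Submodule.add_mem _ h3 h1
      rwa [sub_add_cancel] at h4

theorem UU_dim [FiniteDimensional k F] (hg : ∀ a ∈ g, ∀ b ∈ g, a * b - b * a ∈ g)
    (hv : ∀ i, v i ∈ g) (hsp : Sp g F v) (m : ℕ) :
    FiniteDimensional k (UU g F m) ∧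
      Module.finrank k (UU g F m) ≤ (m + 1) ^ r * Module.finrank k F := by
  have h1 : UU g F m ≤ LinearMap.range (Phi v F m) :=
    (UU_WW hg hv hsp m).trans (WW_Phi hg hv hsp m m le_rfl)
  refine ⟨Submodule.finiteDimensional_of_le h1, (Submodule.finrank_mono h1).trans ?_⟩
  refine (LinearMap.finrank_range_le _).trans (le_of_eq ?_)
  rw [Module.finrank_pi_fintype]
  simp

end

/-- The theorem. -/
theorem abs_main {k V : Type*} [Field k] [AddCommGroup V] [Module k V]
    (F : ℕ → Submodule k V) (hfin : ∀ j, FiniteDimensional k (F j))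
    (T g : Submodule k (Module.End k V))
    (hT : ∀ a ∈ T, ∀ b ∈ g, a * b - b * a ∈ T) (hg : ∀ a ∈ g, ∀ b ∈ g, a * b - b * a ∈ g)
    (hTF : ∀ a ∈ T, ∀ j, ∀ x ∈ F j, a x ∈ F (j + 1)) (hmono : ∀ j, F j ≤ F (j + 1))
    (hgen : ∀ j, F (j + 1) ≤ F j ⊔ Submodule.span k {y | ∃ a ∈ T, ∃ x ∈ F j, y = a x})
    (k0 : ℕ) (hU : ∀ x ∈ F (k0 + 1), ∃ m, x ∈ UU g (F k0) m) (r : ℕ) (v : Fin r → Module.End k V)
    (hv : ∀ i, v i ∈ g)
    (hsp : ∀ a ∈ g, ∃ c : Fin r → k, ∀ x ∈ F k0, (a - ∑ i, c i • v i) x ∈ F k0) (n : ℕ)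
    (hdim : ∀ N : ℕ, (N + 1) ^ n ≤ Module.finrank k (F (n * N))) : n ≤ r := by
  classical
  -- a finite step
  obtain ⟨c, hc⟩ : ∃ c, F (k0 + 1) ≤ UU g (F k0) c := by
    have h1 := hfin (k0 + 1)
    obtain ⟨s, hs⟩ := (Submodule.fg_iff_finiteDimensional (F (k0 + 1))).2 h1
    have hU' : ∀ x : V, ∃ m, x ∈ F (k0 + 1) → x ∈ UU g (F k0) m := by
      intro x
      by_cases hx : x ∈ F (k0 + 1)
      · obtain ⟨m, hm⟩ := hU x hx
        exact ⟨m, fun _ => hm⟩
      · exact ⟨0, fun h => absurd h hx⟩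
    choose mm hmm using hU'
    refine ⟨s.sup mm, ?_⟩
    rw [← hs]
    refine Submodule.span_le.2 (fun x hx => ?_)
    refine UU_mono (Finset.le_sup hx) (hmm x ?_)
    rw [← hs]
    exact Submodule.subset_span hx
  have hstep : ∀ j, F (k0 + j) ≤ UU g (F k0) (c * j) := by
    intro j
    induction j with
    | zero => exact le_rfl
    | succ j ih =>
      refine (hgen (k0 + j)).trans (sup_le ?_ (Submodule.span_le.2 ?_))
      · exact ih.trans (UU_mono (Nat.mul_le_mul_left c (Nat.le_succ j)))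
      · rintro y ⟨a, ha, x, hx, rfl⟩
        have h1 := UU_theta (F' := F (k0 + 1)) hT (fun a ha x hx => hTF a ha k0 x hx)
          (c * j) a ha x (ih hx)
        have h2 := UU_add c (c * j) (UU_mono_F hc (c * j) h1)
        have h3 : c + c * j = c * (j + 1) := by ring
        rwa [h3] at h2
  have hmono' : Monotone F := monotone_nat_of_le_succ hmono
  -- dimensions
  set d := Module.finrank k (F k0) with hd
  have hbig : ∀ N : ℕ, (N + 1) ^ n ≤ (c * (n * N) + 1) ^ r * d := by
    intro N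
    refine (hdim N).trans ?_
    have := hfin k0
    obtain ⟨h1, h2⟩ := UU_dim (F := F k0) (v := v) hg hv hsp (c * (n * N))
    refine le_trans ?_ h2
    refine Submodule.finrank_mono ?_
    exact (hmono' (Nat.le_add_left (n * N) k0)).trans (hstep (n * N))
  by_contra hcon
  push Not at hcon
  have h1 := hbig ((c * n + 1) ^ r * d)
  set N := (c * n + 1) ^ r * d with hN
  have h2 : (N + 1) ^ (r + 1) ≤ (N + 1) ^ n := Nat.pow_le_pow_right (by omega) hcon
  have h3 : c * (n * N) + 1 ≤ (c * n + 1) * (N + 1) := by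
    have : (c * n + 1) * (N + 1) = c * (n * N) + 1 + (c * n + N) := by ring
    omega
  have h4 : (c * (n * N) + 1) ^ r * d ≤ ((c * n + 1) * (N + 1)) ^ r * d :=
    Nat.mul_le_mul_right d (Nat.pow_le_pow_left h3 r)
  have h5 : ((c * n + 1) * (N + 1)) ^ r * d = (N + 1) ^ r * N := by
    rw [mul_pow, hN]
    ring
  have h6 : (N + 1) ^ (r + 1) = (N + 1) ^ r * N + (N + 1) ^ r := by
    rw [pow_succ]
    ring
  have h7 : 0 < (N + 1) ^ r := by positivity
  omega

end Pool.Agent.Helper25.DAF
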