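import Pool.Agent.Helper15.DAF.Stmts

/-! Row IND1 of `Pool/Agent/Helper15/DAF/Stmts.lean` (MP_c8969c_ag). -/

set_option autoImplicit false

namespace Pool.Agent.Helper15.DAF

namespace S25

section ring
variable {E : Type} [Ring E] (D : E →+ E) (hD : ∀ a b, D (a * b) = D a * b + a * D b)
include hD

theorem D_one : D 1 = 0 := by
  have h := hD 1 1
  rw [mul_one, mul_one, one_mul] at h
  exact left_eq_add.1 h

theorem D_pow_zero (a : E) (ha : D a = 0) (m : ℕ) : D (a ^ m) = 0 := by
  induction m with
  | zero => rw [pow_zero, D_one D hD]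
  | succ m ih => rw [pow_succ, hD, ih, ha, zero_mul, mul_zero, add_zero]

theorem D_pow_one (a : E) (ha : D a = 1) (m : ℕ) : D (a ^ m) = m • a ^ (m - 1) := by
  induction m with
  | zero => rw [pow_zero, D_one D hD, zero_smul]
  | succ m ih =>
    rw [pow_succ, hD, ih, ha, mul_one, Nat.add_sub_cancel, add_smul, one_smul]
    rcases Nat.eq_zero_or_pos m with h0 | h0
    · subst h0
      simp
    · have h1 : m - 1 + 1 = m := by omega
      rw [smul_mul_assoc, ← pow_succ, h1]

theorem D_prod_zero : ∀ (n : ℕ) (f : Fin n → E), (∀ i, D (f i) = 0) →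
    D (List.ofFn f).prod = 0 := by
  intro n
  induction n with
  | zero =>
    intro f _
    rw [List.ofFn_zero, List.prod_nil, D_one D hD]
  | succ n ih =>
    intro f hf
    rw [List.ofFn_succ, List.prod_cons, hD, hf 0, ih _ (fun i => hf i.succ), zero_mul,
      mul_zero, add_zero]

theorem D_prod (a : ℕ) : ∀ (n : ℕ) (f f' : Fin n → E) (j : Fin n), (∀ i, i ≠ j → D (f i) = 0) →
    (∀ i, i ≠ j → f' i = f i) → D (f j) = a • f' j →
    D (List.ofFn f).prod = a • (List.ofFn f').prod := by
  intro n
  induction n with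
  | zero => intro f f' j; exact j.elim0
  | succ n ih =>
    intro f f' j h1 h2 h3
    rw [List.ofFn_succ, List.ofFn_succ, List.prod_cons, List.prod_cons, hD]
    induction j using Fin.cases with
    | zero =>
      rw [D_prod_zero D hD _ _ (fun i => h1 i.succ (Fin.succ_ne_zero i)), mul_zero, add_zero, h3,
        smul_mul_assoc]
      have h4 : (fun i : Fin n => f' i.succ) = fun i => f i.succ :=
        funext fun i => h2 i.succ (Fin.succ_ne_zero i)
      rw [h4]
    | succ j =>
      rw [h1 0 (Fin.succ_ne_zero j).symm, zero_mul, zero_add,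
        h2 0 (Fin.succ_ne_zero j).symm,
        ih (fun i => f i.succ) (fun i => f' i.succ) j
          (fun i hi => h1 i.succ (fun h => hi (Fin.succ_injective _ h)))
          (fun i hi => h2 i.succ (fun h => hi (Fin.succ_injective _ h))) h3, mul_smul_comm]

end ring

variable {K : Type} [Field K] [Algebra ℂ K]

/-- the commutator with the multiplication by `y` -/
noncomputable def adj (y : K) : Module.End ℂ K →+ Module.End ℂ K where
  toFun P := P * mulOp y - mulOp y * P
  map_zero' := by rw [zero_mul, mul_zero, sub_zero]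
  map_add' P Q := by rw [add_mul, mul_add]; abel

theorem adj_apply (y : K) (P : Module.End ℂ K) : adj y P = P * mulOp y - mulOp y * P := rfl

theorem adj_leib (y : K) (P Q : Module.End ℂ K) : adj y (P * Q) = adj y P * Q + P * adj y Q := by
  rw [adj_apply, adj_apply, adj_apply]
  simp only [mul_sub, sub_mul, mul_assoc]
  abel

theorem mulOp_comm (a b : K) : mulOp a * mulOp b = mulOp b * mulOp a := by
  refine LinearMap.ext fun x => ?_
  change a * (b * x) = b * (a * x)
  ring

theorem adj_right (y c : K) (P : Module.End ℂ K) : adj y (P * mulOp c) = adj y P * mulOp c := by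
  rw [adj_leib]
  have h : adj y (mulOp c) = 0 := by rw [adj_apply, mulOp_comm, sub_self]
  rw [h, mul_zero, add_zero]

theorem adj_der (y : K) (d : Module.End ℂ K) (hd : ∀ a b : K, d (a * b) = a * d b + b * d a) :
    adj y d = mulOp (d y) := by
  refine LinearMap.ext fun x => ?_
  change d (y * x) - y * d x = d y * x
  rw [hd]
  ring

theorem mulOp_one : (mulOp 1 : Module.End ℂ K) = 1 := by
  refine LinearMap.ext fun x => ?_
  change 1 * x = x
  rw [one_mul]

theorem mulOp_zero : (mulOp 0 : Module.End ℂ K) = 0 := by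
  refine LinearMap.ext fun x => ?_
  change 0 * x = 0
  rw [zero_mul]

theorem adj_tmon {B : Subalgebra ℂ K} {n : ℕ} {t : Fin n → Module.End ℂ K} {y : Fin n → K}
    (h : IsCoord B n t y) (j : Fin n) (α : Fin n → ℕ) :
    adj (y j) (tmon t α) = α j • tmon t (α - Pi.single j 1) := by
  obtain ⟨h1, -, h3, -⟩ := h
  have ht : ∀ i, adj (y j) (t i) = if i = j then 1 else 0 := by
    intro i
    rw [adj_der _ _ (h1 i).1, h3]
    split_ifs
    · exact mulOp_one
    · exact mulOp_zero
  unfold tmon
  refine D_prod (adj (y j)) (adj_leib (y j)) (α j) n _ _ j ?_ ?_ ?_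
  · intro i hi
    refine D_pow_zero _ (adj_leib (y j)) _ ?_ _
    rw [ht, if_neg hi]
  · intro i hi
    rw [Pi.sub_apply, Pi.single_eq_of_ne hi, Nat.sub_zero]
  · rw [D_pow_one _ (adj_leib (y j)) _ (by rw [ht, if_pos rfl]), Pi.sub_apply,
      Pi.single_eq_same]

theorem ind_aux {B : Subalgebra ℂ K} {n : ℕ} {t : Fin n → Module.End ℂ K} {y : Fin n → K}
    (h : IsCoord B n t y) (d : ℕ) : ∀ (A : Finset (Fin n → ℕ)) (c : (Fin n → ℕ) → K),
    (∀ α ∈ A, ∑ i, α i ≤ d) → ∑ α ∈ A, tmon t α * mulOp (c α) = 0 → ∀ α ∈ A, c α = 0 := by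
  classical
  -- the multi-index `0`
  have hzero : ∀ (A : Finset (Fin n → ℕ)) (c : (Fin n → ℕ) → K),
      (∀ α ∈ A, α ≠ 0 → c α = 0) → ∑ α ∈ A, tmon t α * mulOp (c α) = 0 →
      ∀ α ∈ A, c α = 0 := by
    intro A c hA hs α hα
    by_cases h0 : α = 0
    · subst h0
      rw [Finset.sum_eq_single_of_mem 0 hα (fun β hβ hβ0 => by
        rw [hA β hβ hβ0, mulOp_zero, mul_zero])] at hs
      have h1 : tmon t 0 = 1 := by
        unfold tmon
        have h2 : (fun i => t i ^ (0 : Fin n → ℕ) i) = fun _ => 1 := by
          funext i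
          rw [Pi.zero_apply, pow_zero]
        rw [h2, List.ofFn_const, List.prod_replicate, one_pow]
      rw [h1, one_mul] at hs
      have h2 := LinearMap.congr_fun hs 1
      have h3 : c 0 * 1 = 0 := h2
      rwa [mul_one] at h3
    · exact hA α hα h0
  induction d with
  | zero =>
    intro A c hA hs
    refine hzero A c (fun α hα h0 => ?_) hs
    exfalso
    apply h0
    funext i
    have h1 := hA α hα
    have h2 : α i ≤ ∑ i, α i := Finset.single_le_sum (fun _ _ => Nat.zero_le _) (Finset.mem_univ i)
    rw [Pi.zero_apply]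
    omega
  | succ d ih =>
    intro A c hA hs
    refine hzero A c (fun α hα h0 => ?_) hs
    obtain ⟨j, hj⟩ : ∃ j, α j ≠ 0 := by
      by_contra hcon
      push Not at hcon
      exact h0 (funext hcon)
    have h1 := congrArg (adj (y j)) hs
    rw [map_sum, map_zero] at h1
    set A1 := A.filter (fun β => β j ≠ 0) with hA1
    have h2 : ∑ β ∈ A1, β j • (tmon t (β - Pi.single j 1) * mulOp (c β)) = 0 := by
      rw [← h1, hA1, Finset.sum_filter]
      refine Finset.sum_congr rfl fun β _ => ?_
      rw [adj_right, adj_tmon h]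
      split_ifs with hβ
      · rw [smul_mul_assoc]
      · rw [not_not] at hβ
        rw [hβ, zero_smul, zero_mul]
    have hback : ∀ β : Fin n → ℕ, β j ≠ 0 → β - Pi.single j 1 + Pi.single j 1 = β := by
      intro β hβ
      funext i
      rw [Pi.add_apply, Pi.sub_apply]
      by_cases hi : i = j
      · subst hi
        rw [Pi.single_eq_same]
        omega
      · rw [Pi.single_eq_of_ne hi]
        omega
    have hinj : Set.InjOn (fun β : Fin n → ℕ => β - Pi.single j 1) (A1 : Set (Fin n → ℕ)) := by
      intro β hβ γ hγ hbg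
      have e1 := hback β (Finset.mem_filter.1 hβ).2
      have e2 := hback γ (Finset.mem_filter.1 hγ).2
      rw [← e1, ← e2]
      simp only at hbg
      rw [hbg]
    have h3 : ∑ γ ∈ A1.image (fun β => β - Pi.single j 1), tmon t γ *
        mulOp ((fun γ : Fin n → ℕ => ((γ j + 1 : ℕ) : K) * c (γ + Pi.single j 1)) γ) = 0 := by
      rw [Finset.sum_image hinj, ← h2]
      refine Finset.sum_congr rfl fun β hβ => ?_
      have hβj := (Finset.mem_filter.1 hβ).2
      have e3 : (β - Pi.single j 1 : Fin n → ℕ) j + 1 = β j := by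
        rw [Pi.sub_apply, Pi.single_eq_same]
        omega
      simp only
      rw [hback β hβj, e3]
      refine LinearMap.ext fun x => ?_
      change (tmon t (β - Pi.single j 1)) (((β j : ℕ) : K) * c β * x) =
        (β j • (tmon t (β - Pi.single j 1) * mulOp (c β))) x
      rw [LinearMap.smul_apply]
      change _ = β j • ((tmon t (β - Pi.single j 1)) (c β * x))
      rw [← map_nsmul, nsmul_eq_mul, mul_assoc]
    have h4 := ih _ _ ?_ h3 (α - Pi.single j 1)
      (Finset.mem_image.2 ⟨α, Finset.mem_filter.2 ⟨hα, hj⟩, rfl⟩)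
    · rw [hback α hj] at h4
      have hchar : CharZero K := charZero_of_injective_algebraMap (algebraMap ℂ K).injective
      rcases mul_eq_zero.1 h4 with h5 | h5
      · exfalso
        exact Nat.cast_ne_zero.2 (Nat.succ_ne_zero _) h5
      · exact h5
    · intro γ hγ
      obtain ⟨β, hβ, rfl⟩ := Finset.mem_image.1 hγ
      obtain ⟨hβA, hβj⟩ := Finset.mem_filter.1 hβ
      have e1 := hA β hβA
      have e2 : ∑ i, β i = ∑ i, (β - Pi.single j 1 : Fin n → ℕ) i + 1 := by
        conv_lhs => rw [← hback β hβj]
        simp only [Pi.add_apply, Finset.sum_add_distrib]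
        simp
      omega

end S25

open S25

/-- Row IND1. -/
theorem st_IND1 : ST_IND1 := by
  intro K _ _ B n t y h A c hs
  exact ind_aux h (A.sup (fun α => ∑ i, α i)) A c
    (fun α hα => Finset.le_sup (f := fun α : Fin n → ℕ => ∑ i, α i) hα) hs

end Pool.Agent.Helper15.DAF
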