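import Pool.Agent.Helper15.DAF.Stmts

/-! Row LOCAL of `Pool/Agent/Helper15/DAF/Stmts.lean` (MP_c8969c_ag). -/

set_option autoImplicit false

namespace Pool.Agent.Helper15.DAF

namespace S25L

variable {K : Type} [Field K] [Algebra ℂ K] {B : Subalgebra ℂ K} {m : Set K}

theorem cls_surj (z : Del B m) : ∃ P, cls B m P = z := Submodule.Quotient.mk_surjective _ z

theorem cls_add (P Q : Module.End ℂ K) : cls B m (P + Q) = cls B m P + cls B m Q := rfl
theorem cls_smul (c : ℂ) (P : Module.End ℂ K) : cls B m (c • P) = c • cls B m P := rfl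
theorem cls_zero : cls B m 0 = 0 := rfl

theorem act_add (P Q : Dop B) : act B m (P + Q) = act B m P + act B m Q := by
  refine LinearMap.ext fun z => ?_
  obtain ⟨R, rfl⟩ := cls_surj z
  rw [LinearMap.add_apply, act_cls, act_cls, act_cls, ← cls_add, ← add_mul]
  rfl

theorem act_sub (P Q : Dop B) : act B m (P - Q) = act B m P - act B m Q := by
  refine LinearMap.ext fun z => ?_
  obtain ⟨R, rfl⟩ := cls_surj z
  have h : cls B m ((P : Module.End ℂ K) * R) - cls B m ((Q : Module.End ℂ K) * R) =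
      cls B m ((P : Module.End ℂ K) * R - (Q : Module.End ℂ K) * R) := rfl
  rw [LinearMap.sub_apply, act_cls, act_cls, act_cls, h, ← sub_mul]
  rfl

theorem act_smul (c : ℂ) (P : Dop B) : act B m (c • P) = c • act B m P := by
  refine LinearMap.ext fun z => ?_
  obtain ⟨R, rfl⟩ := cls_surj z
  rw [LinearMap.smul_apply, act_cls, act_cls, ← cls_smul, ← smul_mul_assoc]
  rfl

theorem act_zero : act B m 0 = 0 := by
  refine LinearMap.ext fun z => ?_
  obtain ⟨R, rfl⟩ := cls_surj z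
  rw [act_cls, LinearMap.zero_apply, ← cls_zero]
  congr 1

theorem act_mul (P Q : Dop B) : act B m (P * Q) = act B m P * act B m Q := by
  refine LinearMap.ext fun z => ?_
  obtain ⟨R, rfl⟩ := cls_surj z
  rw [Module.End.mul_apply, act_cls, act_cls, act_cls, ← mul_assoc]
  rfl

theorem act_one : act B m 1 = 1 := by
  refine LinearMap.ext fun z => ?_
  obtain ⟨R, rfl⟩ := cls_surj z
  rw [act_cls, Module.End.one_apply]
  congr 1

theorem der_mem {d : Module.End ℂ K} (hd : d ∈ Der B) : d ∈ Dop B :=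
  Algebra.subset_adjoin (Or.inr hd)

theorem mulOp_mem {b : K} (hb : b ∈ B) : mulOp b ∈ Dop B :=
  Algebra.subset_adjoin (Or.inl ⟨b, hb, rfl⟩)

theorem der_comm {d e : Module.End ℂ K} (hd : d ∈ Der B) (he : e ∈ Der B) :
    d * e - e * d ∈ Der B := by
  refine ⟨fun a b => ?_, fun b hb => ?_⟩
  · change d (e (a * b)) - e (d (a * b)) = a * (d (e b) - e (d b)) + b * (d (e a) - e (d a))
    rw [he.1, hd.1, map_add, map_add, hd.1, hd.1, he.1, he.1]
    ring
  · exact B.sub_mem (hd.2 _ (he.2 b hb)) (he.2 _ (hd.2 b hb))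

/-- derivations vanishing at the point -/
noncomputable def Esp (B : Subalgebra ℂ K) (m : Set K) : Submodule ℂ (Module.End ℂ K) :=
  Submodule.span ℂ {e : Module.End ℂ K | ∃ a ∈ m, ∃ d' ∈ Der B, e = mulOp a * d'}

theorem esp_act (hP : Pt B m) (F : Submodule ℂ (Del B m))
    (h5 : ∀ b ∈ m, ∀ d ∈ Der B, ∀ P : Dop B, (P : Module.End ℂ K) = mulOp b * d →
      ∀ z ∈ F, act B m P z ∈ F) :
    ∀ w ∈ Esp B m, ∃ hw : w ∈ Dop B, ∀ z ∈ F, act B m ⟨w, hw⟩ z ∈ F := by
  intro w hw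
  unfold Esp at hw
  induction hw using Submodule.span_induction with
  | mem e he =>
    obtain ⟨a, ha, d, hd, rfl⟩ := he
    have h1 : mulOp a * d ∈ Dop B := (Dop B).mul_mem (mulOp_mem (hP.sub a ha)) (der_mem hd)
    exact ⟨h1, fun z hz => h5 a ha d hd ⟨_, h1⟩ rfl z hz⟩
  | zero =>
    refine ⟨(Dop B).zero_mem, fun z _ => ?_⟩
    have h1 : act B m ⟨0, (Dop B).zero_mem⟩ = 0 := act_zero
    rw [h1, LinearMap.zero_apply]
    exact Submodule.zero_mem _
  | add x y _ _ ihx ihy =>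
    obtain ⟨hx, hx'⟩ := ihx
    obtain ⟨hy, hy'⟩ := ihy
    refine ⟨(Dop B).add_mem hx hy, fun z hz => ?_⟩
    have h1 : act B m ⟨x + y, (Dop B).add_mem hx hy⟩ = act B m ⟨x, hx⟩ + act B m ⟨y, hy⟩ :=
      act_add ⟨x, hx⟩ ⟨y, hy⟩
    rw [h1, LinearMap.add_apply]
    exact Submodule.add_mem _ (hx' z hz) (hy' z hz)
  | smul c x _ ihx =>
    obtain ⟨hx, hx'⟩ := ihx
    refine ⟨(Dop B).smul_mem hx c, fun z hz => ?_⟩
    have h1 : act B m ⟨c • x, (Dop B).smul_mem hx c⟩ = c • act B m ⟨x, hx⟩ := act_smul c ⟨x, hx⟩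
    rw [h1, LinearMap.smul_apply]
    exact Submodule.smul_mem _ c (hx' z hz)

theorem der_span {n : ℕ} {t : Fin n → Module.End ℂ K} {y : Fin n → K} (hP : Pt B m)
    (hc : IsCoord B n t y) {d : Module.End ℂ K} (hd : d ∈ Der B) :
    (Esp B m).mkQ d ∈ Submodule.span ℂ (Set.range fun i => (Esp B m).mkQ (t i)) := by
  obtain ⟨h1, h2, -, h4⟩ := hc
  choose c hcm using fun i => hP.res (d (y i)) (hd.2 _ (h2 i))
  have h5 : d = ∑ i, c i • t i + ∑ i, mulOp (d (y i) - algebraMap ℂ K (c i)) * t i := by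
    conv_lhs => rw [h4 d hd]
    rw [← Finset.sum_add_distrib]
    refine Finset.sum_congr rfl fun i _ => LinearMap.ext fun x => ?_
    change d (y i) * t i x = c i • t i x + (d (y i) - algebraMap ℂ K (c i)) * t i x
    rw [Algebra.smul_def]
    ring
  have h6 : ∑ i, mulOp (d (y i) - algebraMap ℂ K (c i)) * t i ∈ Esp B m :=
    Submodule.sum_mem _ fun i _ => Submodule.subset_span ⟨_, hcm i, t i, h1 i, rfl⟩
  rw [h5, map_add, map_sum]
  have h7 : (Esp B m).mkQ (∑ i, mulOp (d (y i) - algebraMap ℂ K (c i)) * t i) = 0 := by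
    rw [Submodule.mkQ_apply]
    exact (Submodule.Quotient.mk_eq_zero _).2 h6
  rw [h7, add_zero]
  refine Submodule.sum_mem _ fun i _ => ?_
  rw [map_smul]
  exact Submodule.smul_mem _ _ (Submodule.subset_span ⟨i, rfl⟩)

section um
variable {V : Type} [AddCommGroup V] [Module ℂ V] {g : Set (Module.End ℂ V)}

theorem um_succ (c : ℕ) (W : Submodule ℂ V) : Um g c W ≤ Um g (c + 1) W := le_sup_left

theorem um_mono {c c' : ℕ} (h : c ≤ c') (W : Submodule ℂ V) : Um g c W ≤ Um g c' W :=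
  monotone_nat_of_le_succ (fun c => um_succ (g := g) c W) h

theorem um_act {u : Module.End ℂ V} (hu : u ∈ g) {c : ℕ} {W : Submodule ℂ V} {x : V}
    (hx : x ∈ Um g c W) : u x ∈ Um g (c + 1) W := by
  have h1 : (Um g c W).map u ≤ Um g (c + 1) W :=
    le_sup_of_le_right (le_iSup₂_of_le (f := fun u (_ : u ∈ g) => (Um g c W).map u) u hu le_rfl)
  exact h1 ⟨x, hx, rfl⟩

end um

theorem fil_succ {n : ℕ} (T : Fin n → Dop B) (j : ℕ) : Fil B m T j ≤ Fil B m T (j + 1) :=
  le_sup_left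

theorem fil_cls {n : ℕ} (T : Fin n → Dop B) (j : ℕ) :
    ∀ x ∈ Fil B m T j, ∃ P ∈ Dop B, cls B m P = x := by
  -- the classes of `Dop B` form a subspace
  set S : Submodule ℂ (Del B m) := ((Dop B).toSubmodule).map (Jm B m).mkQ with hS
  have hmem : ∀ x ∈ S, ∃ P ∈ Dop B, cls B m P = x := by
    rintro x ⟨P, hP, rfl⟩
    exact ⟨P, hP, rfl⟩
  suffices h : Fil B m T j ≤ S by exact fun x hx => hmem x (h hx)
  induction j with
  | zero =>
    refine Submodule.span_le.2 ?_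
    rintro _ rfl
    exact ⟨1, (Dop B).one_mem, rfl⟩
  | succ j ih =>
    refine sup_le ih (iSup_le fun i => ?_)
    rintro _ ⟨x, hx, rfl⟩
    obtain ⟨P, hP, rfl⟩ := hmem x (ih hx)
    exact ⟨(T i : Module.End ℂ K) * P, (Dop B).mul_mem (T i).2 hP, rfl⟩

end S25L

open S25L

/-- Row LOCAL. -/
theorem st_LOCAL (hABS : ST_ABS) (hCO : ST_COORD) (hIN : ST_IND3) : ST_LOCAL := by
  intro K _ _ B m n t y hP hc g0 hg0 hgg hfg
  by_contra hcon
  obtain ⟨S, hSD, hS⟩ := hfg
  set T : Fin n → Dop B := fun i => ⟨t i, der_mem (hc.1 i)⟩ with hT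
  obtain ⟨-, -, -, h4, h5, h6, h7⟩ := hCO K B m n t y hP hc T (fun i => rfl)
  have hdim := hIN K B m n t y hP hc T (fun i => rfl) h7
  set F : ℕ → Submodule ℂ (Del B m) := Fil B m T with hF
  have hmono : Monotone F := monotone_nat_of_le_succ (fun j => fil_succ T j)
  -- the rank of `g0` modulo the derivations vanishing at the point
  set π := (Esp B m).mkQ with hπ
  set W := g0.map π with hW
  set Dn := Submodule.span ℂ (Set.range fun i => π (t i)) with hDn
  have hWD : W ≤ Dn := by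
    rintro _ ⟨v, hv, rfl⟩
    exact der_span hP hc (hg0 v hv)
  have hne : W ≠ Dn := by
    intro h
    apply hcon
    intro d hd
    have h1 : π d ∈ W := by
      rw [h]
      exact der_span hP hc hd
    obtain ⟨v, hv, hvd⟩ := h1
    refine ⟨v, hv, d - v, ?_, (add_sub_cancel v d).symm⟩
    have h2 : π (d - v) = 0 := by rw [map_sub, hvd, sub_self]
    exact (Submodule.Quotient.mk_eq_zero _).1 h2
  have hfinD : FiniteDimensional ℂ Dn := FiniteDimensional.span_of_finite ℂ (Set.finite_range _)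
  have hfinW : FiniteDimensional ℂ W := Submodule.finiteDimensional_of_le hWD
  have hr : Module.finrank ℂ W < n := by
    have h1 := Submodule.finrank_lt_finrank_of_lt (lt_of_le_of_ne hWD hne)
    have h2 : Module.finrank ℂ Dn ≤ Fintype.card (Fin n) := finrank_range_le_card _
    rw [Fintype.card_fin] at h2
    exact lt_of_lt_of_le h1 h2
  set b := Module.finBasis ℂ W with hb
  have hlift : ∀ i, ∃ v ∈ g0, π v = (b i : _) := by
    intro i
    obtain ⟨v, hv, hvb⟩ := (b i).2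
    exact ⟨v, hv, hvb⟩
  choose v hv hvb using hlift
  have hrep : ∀ u ∈ g0, ∃ c : Fin (Module.finrank ℂ W) → ℂ, u - ∑ i, c i • v i ∈ Esp B m := by
    intro u hu
    refine ⟨fun i => b.repr ⟨π u, u, hu, rfl⟩ i, ?_⟩
    have h1 := congrArg W.subtype (b.sum_repr ⟨π u, u, hu, rfl⟩)
    rw [map_sum] at h1
    simp only [map_smul, Submodule.subtype_apply] at h1
    have h2 : π (u - ∑ i, b.repr ⟨π u, u, hu, rfl⟩ i • v i) = 0 := by
      rw [map_sub, map_sum]
      have h3 : ∑ i, π (b.repr ⟨π u, u, hu, rfl⟩ i • v i) = π u := by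
        have h4 : ∀ i, π (b.repr ⟨π u, u, hu, rfl⟩ i • v i) =
            b.repr ⟨π u, u, hu, rfl⟩ i • (b i : _) := by
          intro i
          rw [map_smul, hvb]
        rw [Finset.sum_congr rfl fun i _ => h4 i]
        exact h1
      rw [h3, sub_self]
    exact (Submodule.Quotient.mk_eq_zero _).1 h2
  -- the operators on the delta module
  set g : Set (Module.End ℂ (Del B m)) :=
    {A | ∃ P : Dop B, (P : Module.End ℂ K) ∈ g0 ∧ A = act B m P} with hg
  set T' : Set (Module.End ℂ (Del B m)) :=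
    {A | ∃ P : Dop B, (P : Module.End ℂ K) ∈ Der B ∧ A = act B m P} with hT'
  -- a step of the filtration which contains the classes of the generators
  obtain ⟨k, hk⟩ : ∃ k, ∀ a ∈ S, cls B m a ∈ F k := by
    have h1 : ∀ a : Module.End ℂ K, ∃ k, a ∈ S → cls B m a ∈ F k := by
      intro a
      by_cases ha : a ∈ S
      · obtain ⟨k, hk⟩ := h6 ⟨a, hSD a ha⟩
        exact ⟨k, fun _ => hk⟩
      · exact ⟨0, fun h => absurd h ha⟩
    choose kk hkk using h1
    exact ⟨S.sup kk, fun a ha => hmono (Finset.le_sup ha) (hkk a ha)⟩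
  -- products of elements of `g0`
  have hadj : ∀ u ∈ Algebra.adjoin ℂ (g0 : Set (Module.End ℂ K)), ∃ (hu : u ∈ Dop B) (c : ℕ),
      ∀ e : ℕ, ∀ z ∈ Um g e (F k), act B m ⟨u, hu⟩ z ∈ Um g (c + e) (F k) := by
    intro u hu
    induction hu using Algebra.adjoin_induction with
    | mem x hx =>
      refine ⟨der_mem (hg0 x hx), 1, fun e z hz => ?_⟩
      rw [add_comm 1 e]
      exact um_act (g := g) ⟨⟨x, der_mem (hg0 x hx)⟩, hx, rfl⟩ hz
    | algebraMap r =>
      refine ⟨(Dop B).algebraMap_mem r, 0, fun e z hz => ?_⟩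
      have h1 : (⟨algebraMap ℂ (Module.End ℂ K) r, (Dop B).algebraMap_mem r⟩ : Dop B) =
          r • 1 := by
        apply Subtype.ext
        exact Algebra.algebraMap_eq_smul_one r
      rw [h1, act_smul, act_one, LinearMap.smul_apply, Module.End.one_apply, zero_add]
      exact Submodule.smul_mem _ _ hz
    | add x y _ _ ihx ihy =>
      obtain ⟨hx, c1, h1⟩ := ihx
      obtain ⟨hy, c2, h2⟩ := ihy
      refine ⟨(Dop B).add_mem hx hy, c1 + c2, fun e z hz => ?_⟩
      have h3 : act B m ⟨x + y, (Dop B).add_mem hx hy⟩ = act B m ⟨x, hx⟩ + act B m ⟨y, hy⟩ :=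
        act_add ⟨x, hx⟩ ⟨y, hy⟩
      rw [h3, LinearMap.add_apply]
      exact Submodule.add_mem _ (um_mono (by omega) _ (h1 e z hz))
        (um_mono (by omega) _ (h2 e z hz))
    | mul x y _ _ ihx ihy =>
      obtain ⟨hx, c1, h1⟩ := ihx
      obtain ⟨hy, c2, h2⟩ := ihy
      refine ⟨(Dop B).mul_mem hx hy, c1 + c2, fun e z hz => ?_⟩
      have h3 : act B m ⟨x * y, (Dop B).mul_mem hx hy⟩ = act B m ⟨x, hx⟩ * act B m ⟨y, hy⟩ :=
        act_mul ⟨x, hx⟩ ⟨y, hy⟩
      rw [h3, Module.End.mul_apply]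
      have h5 := h1 _ _ (h2 e z hz)
      rwa [← add_assoc] at h5
  have hgen : ∀ P ∈ Dop B, ∃ c, cls B m P ∈ Um g c (F k) := by
    intro P hPD
    obtain ⟨Q, hQ, hPQ⟩ := hS P hPD
    have h1 : cls B m P = cls B m Q := by
      have h2 : cls B m (P - Q) = 0 := (Submodule.Quotient.mk_eq_zero _).2 hPQ
      have h3 : cls B m P - cls B m Q = 0 := h2
      exact sub_eq_zero.1 h3
    rw [h1]
    clear hPQ h1
    induction hQ using Submodule.span_induction with
    | mem x hx =>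
      obtain ⟨u, hu, a, ha, rfl⟩ := hx
      obtain ⟨huD, c, hc⟩ := hadj u hu
      have h1 := hc 0 _ (hk a ha)
      rw [act_cls] at h1
      exact ⟨c + 0, h1⟩
    | zero => exact ⟨0, by rw [cls_zero]; exact Submodule.zero_mem _⟩
    | add x y _ _ ihx ihy =>
      obtain ⟨c1, h1⟩ := ihx
      obtain ⟨c2, h2⟩ := ihy
      refine ⟨c1 + c2, ?_⟩
      rw [cls_add]
      exact Submodule.add_mem _ (um_mono (by omega) _ h1) (um_mono (by omega) _ h2)
    | smul c x _ ihx =>
      obtain ⟨c1, h1⟩ := ihx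
      refine ⟨c1, ?_⟩
      rw [cls_smul]
      exact Submodule.smul_mem _ _ h1
  refine hABS (Del B m) g T' F ?_ ?_ ?_ (fun j => fil_succ T j) h7 n (Module.finrank ℂ W) k hr
    hdim ?_ (fun i => act B m ⟨v i, der_mem (hg0 _ (hv i))⟩) ?_ ?_ ?_
  · rintro _ ⟨P, hPd, rfl⟩ _ ⟨Q, hQg, rfl⟩
    refine ⟨P * Q - Q * P, der_comm hPd (hg0 _ hQg), ?_⟩
    rw [act_sub, act_mul, act_mul]
  · intro j
    refine sup_le le_sup_left (iSup_le fun i => le_sup_of_le_right ?_)
    exact le_iSup₂_of_le (f := fun u (_ : u ∈ T') => (F j).map u) (act B m (T i))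
      ⟨T i, hc.1 i, rfl⟩ le_rfl
  · rintro j _ ⟨P, hPd, rfl⟩ _ ⟨z, hz, rfl⟩
    exact h4 j _ hPd P rfl z hz
  · intro x hx
    obtain ⟨P, hPD, rfl⟩ := fil_cls T (k + 1) x hx
    exact hgen P hPD
  · intro i
    exact ⟨⟨v i, der_mem (hg0 _ (hv i))⟩, hv i, rfl⟩
  · rintro _ ⟨P, hPg, rfl⟩ _ ⟨Q, hQg, rfl⟩
    refine ⟨P * Q - Q * P, hgg _ hPg _ hQg, ?_⟩
    rw [act_sub, act_mul, act_mul]
  · rintro _ ⟨P, hPg, rfl⟩
    obtain ⟨c, hc'⟩ := hrep _ hPg
    obtain ⟨hwD, hw⟩ := esp_act hP (F k) (fun b hb d hd => h5 k b hb d hd) _ hc'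
    have hwg : (P : Module.End ℂ K) - ∑ i, c i • v i ∈ g0 :=
      Submodule.sub_mem _ hPg (Submodule.sum_mem _ fun i _ => Submodule.smul_mem _ _ (hv i))
    refine ⟨c, act B m ⟨_, hwD⟩, ⟨⟨_, hwD⟩, hwg, rfl⟩, hw, ?_⟩
    refine LinearMap.ext fun z => ?_
    obtain ⟨R, rfl⟩ := cls_surj z
    rw [LinearMap.add_apply, LinearMap.sum_apply, act_cls, act_cls]
    have h1 : ∀ i, (c i • act B m ⟨v i, der_mem (hg0 _ (hv i))⟩) (cls B m R) =
        cls B m ((c i • v i) * R) := by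
      intro i
      rw [LinearMap.smul_apply, act_cls, smul_mul_assoc, cls_smul]
    rw [Finset.sum_congr rfl fun i _ => h1 i]
    have h2 : ∑ i, cls B m ((c i • v i) * R) = cls B m ((∑ i, c i • v i) * R) := by
      rw [Finset.sum_mul]
      exact (map_sum (Jm B m).mkQ _ _).symm
    rw [h2, ← cls_add, ← add_mul, sub_add_cancel]

end Pool.Agent.Helper15.DAF
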