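import Pool.Agent.Helper15.DAF.Stmts
import Pool.Agent.Helper25.DAF.Abs

/-! Row ABS of `Pool/Agent/Helper15/DAF/Stmts.lean` (MP_c8969c_ag). -/

set_option autoImplicit false

namespace Pool.Agent.Helper15.DAF

open Pool.Agent.Helper25.DAF

namespace S25

variable {V : Type} [AddCommGroup V] [Module ℂ V]

theorem Um_le (g : Set (Module.End ℂ V)) (m : ℕ) (W : Submodule ℂ V) :
    Um g m W ≤ UU (Submodule.span ℂ g) W m := by
  induction m with
  | zero => exact le_rfl
  | succ m ih =>
    refine sup_le (ih.trans (UU_succ m)) (iSup₂_le fun u hu => ?_)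
    rintro _ ⟨x, hx, rfl⟩
    exact UU_act (Submodule.subset_span hu) (ih hx)

/-- commutators of spans -/
theorem comm_span (A B C : Set (Module.End ℂ V)) (h : ∀ a ∈ A, ∀ b ∈ B, a * b - b * a ∈ C) :
    ∀ a ∈ Submodule.span ℂ A, ∀ b ∈ Submodule.span ℂ B,
      a * b - b * a ∈ Submodule.span ℂ C := by
  intro a ha b hb
  induction ha using Submodule.span_induction with
  | mem a ha =>
    induction hb using Submodule.span_induction with
    | mem b hb => exact Submodule.subset_span (h a ha b hb)
    | zero => rw [mul_zero, zero_mul, sub_zero]; exact Submodule.zero_mem _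
    | add x y _ _ hx hy =>
      have e : a * (x + y) - (x + y) * a = (a * x - x * a) + (a * y - y * a) := by noncomm_ring
      rw [e]
      exact Submodule.add_mem _ hx hy
    | smul c x _ hx =>
      have e : a * (c • x) - (c • x) * a = c • (a * x - x * a) := by
        rw [mul_smul_comm, smul_mul_assoc, smul_sub]
      rw [e]
      exact Submodule.smul_mem _ _ hx
  | zero => rw [mul_zero, zero_mul, sub_zero]; exact Submodule.zero_mem _
  | add x y _ _ hx hy =>
    have e : (x + y) * b - b * (x + y) = (x * b - b * x) + (y * b - b * y) := by noncomm_ring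
    rw [e]
    exact Submodule.add_mem _ hx hy
  | smul c x _ hx =>
    have e : (c • x) * b - b * (c • x) = c • (x * b - b * x) := by
      rw [mul_smul_comm, smul_mul_assoc, smul_sub]
    rw [e]
    exact Submodule.smul_mem _ _ hx

end S25

open S25

/-- Row ABS. -/
theorem st_ABS : ST_ABS := by
  intro V _ _ g T F hTg hgen hTF hmono hfin n r k hrn hdim hU v hv hgg hsp
  have hmain := abs_main F hfin (Submodule.span ℂ T) (Submodule.span ℂ g)
    (comm_span T g T hTg) (comm_span g g g hgg) ?_ hmono ?_ k
    (fun x hx => by
      obtain ⟨c, hc⟩ := hU x hx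
      exact ⟨c, Um_le g c (F k) hc⟩) r v (fun i => Submodule.subset_span (hv i)) ?_ n hdim
  · omega
  · -- T maps F j into F (j + 1)
    intro a ha j x hx
    induction ha using Submodule.span_induction with
    | mem a ha => exact hTF j a ha ⟨x, hx, rfl⟩
    | zero => exact Submodule.zero_mem _
    | add a b _ _ iha ihb => exact Submodule.add_mem _ iha ihb
    | smul c a _ iha => exact Submodule.smul_mem _ c iha
  · intro j
    refine (hgen j).trans (sup_le_sup_left (iSup₂_le fun t ht => ?_) _)
    rintro _ ⟨x, hx, rfl⟩
    exact Submodule.subset_span ⟨t, Submodule.subset_span ht, x, hx, rfl⟩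
  · intro a ha
    induction ha using Submodule.span_induction with
    | mem a ha =>
      obtain ⟨c, w, -, hw, rfl⟩ := hsp a ha
      refine ⟨c, fun x hx => ?_⟩
      rw [add_sub_cancel_right]
      exact hw x hx
    | zero =>
      refine ⟨0, fun x _ => ?_⟩
      simp
    | add a b _ _ iha ihb =>
      obtain ⟨c, hc⟩ := iha
      obtain ⟨d, hd⟩ := ihb
      refine ⟨c + d, fun x hx => ?_⟩
      have e : a + b - ∑ i, (c + d) i • v i = (a - ∑ i, c i • v i) + (b - ∑ i, d i • v i) := by
        simp only [Pi.add_apply, add_smul, Finset.sum_add_distrib]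
        abel
      rw [e]
      exact Submodule.add_mem _ (hc x hx) (hd x hx)
    | smul z a _ iha =>
      obtain ⟨c, hc⟩ := iha
      refine ⟨z • c, fun x hx => ?_⟩
      have e : z • a - ∑ i, (z • c) i • v i = z • (a - ∑ i, c i • v i) := by
        simp only [Pi.smul_apply, smul_assoc, ← Finset.smul_sum, smul_sub]
      rw [e]
      exact Submodule.smul_mem _ _ (hc x hx)

end Pool.Agent.Helper15.DAF
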