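import Mathlib

/-! Coordinates on standard smooth algebras: a lemma for row SMOOTH (MP_c8969c_ag). -/

set_option autoImplicit false

namespace Pool.Agent.Helper25.DAF

open scoped TensorProduct

theorem smooth_alg (R S K : Type) [CommRing R] [CommRing S] [Field K] [Algebra R S]
    [Algebra S K] [Algebra R K] [IsScalarTower R S K] [IsFractionRing S K]
    [hstd : Algebra.IsStandardSmooth R S] :
    ∃ (n : ℕ) (y : Fin n → S) (T : Fin n → Derivation R K K),
      (∀ i j, T i (algebraMap S K (y j)) = if i = j then 1 else 0) ∧
      (∀ i, ∀ b : S, ∃ c : S, T i (algebraMap S K b) = algebraMap S K c) ∧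
      ∀ D : Derivation R K K, ∀ x : K, D x = ∑ i, D (algebraMap S K (y i)) * T i x := by
  classical
  obtain ⟨ι, σ, hσ, hι, ⟨P⟩⟩ := hstd.out
  have hfin : Finite ((Set.range P.map)ᶜ : Set ι) := inferInstance
  have hft : Fintype ((Set.range P.map)ᶜ : Set ι) := Fintype.ofFinite _
  have hFE : Algebra.FormallyEtale S K :=
    Algebra.FormallyEtale.of_isLocalization (nonZeroDivisors S)
  set eq := (Fintype.equivFin ((Set.range P.map)ᶜ : Set ι)) with heq
  set bS := P.basisKaehler.reindex eq with hbS
  set y : Fin (Fintype.card ((Set.range P.map)ᶜ : Set ι)) → S :=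
    fun i => P.val (eq.symm i) with hy
  have hbSy : ∀ i, bS i = KaehlerDifferential.D R S (y i) := by
    intro i
    rw [hbS, Module.Basis.reindex_apply, Algebra.SubmersivePresentation.basisKaehler_apply]
  set e := KaehlerDifferential.tensorKaehlerEquivOfFormallyEtale R S K with he
  have he1 : ∀ b : S, e.symm (KaehlerDifferential.D R K (algebraMap S K b)) =
      1 ⊗ₜ KaehlerDifferential.D R S b := fun b =>
    KaehlerDifferential.tensorKaehlerEquivOfFormallyEtale_symm_D_algebraMap R S K b
  set bK := (bS.baseChange K).map e with hbK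
  have hbKy : ∀ i, bK i = KaehlerDifferential.D R K (algebraMap S K (y i)) := by
    intro i
    rw [hbK, Module.Basis.map_apply, Module.Basis.baseChange_apply, hbSy, ← he1,
      LinearEquiv.apply_symm_apply]
  refine ⟨_, y, fun i => (bK.coord i).compDer (KaehlerDifferential.D R K), ?_, ?_, ?_⟩
  · intro i j
    change bK.coord i (KaehlerDifferential.D R K (algebraMap S K (y j))) = _
    rw [← hbKy, Module.Basis.coord_apply, Module.Basis.repr_self, Finsupp.single_apply]
    by_cases h : i = j
    · subst h
      simp
    · rw [if_neg h, if_neg (fun h' => h h'.symm)]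
  · intro i b
    refine ⟨bS.repr (KaehlerDifferential.D R S b) i, ?_⟩
    change bK.coord i (KaehlerDifferential.D R K (algebraMap S K b)) = _
    rw [Module.Basis.coord_apply, hbK, Module.Basis.map_repr, LinearEquiv.trans_apply, he1,
      Module.Basis.baseChange_repr_tmul, Algebra.smul_def, mul_one]
  · intro D x
    have h1 := bK.sum_repr (KaehlerDifferential.D R K x)
    have h2 := congrArg D.liftKaehlerDifferential h1
    rw [Derivation.liftKaehlerDifferential_comp_D, map_sum] at h2
    rw [← h2]
    refine Finset.sum_congr rfl fun i _ => ?_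
    rw [map_smul, hbKy, Derivation.liftKaehlerDifferential_comp_D, smul_eq_mul, mul_comm]
    rfl

end Pool.Agent.Helper25.DAF
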