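import Pool.Agent.Helper15.DAF.Stmts2
import Pool.Agent.Helper25.DAF.SmAlg

/-! Row SMOOTH of `Pool/Agent/Helper15/DAF/Stmts2.lean` (MP_c8969c_ag). -/

set_option autoImplicit false

open AlgebraicGeometry CategoryTheory TopologicalSpace Opposite

namespace Pool.Agent.Helper15.DAF

namespace S25

variable {X : Scheme.{0}} [IsIntegral X] (s : X ⟶ Spec (CommRingCat.of ℂ))

theorem const_eq (V1 : Aff X) (e : V1.U ≤ s ⁻¹ᵁ ⊤)
    (r : Γ(Spec (CommRingCat.of ℂ), ⊤)) :
    ev s V1 ((s.appLE ⊤ V1.U e).hom r) =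
      constHom s ((Scheme.ΓSpecIso (CommRingCat.of ℂ)).hom.hom r) := by
  have h1 : (Scheme.ΓSpecIso (CommRingCat.of ℂ)).inv.hom
      ((Scheme.ΓSpecIso (CommRingCat.of ℂ)).hom.hom r) = r := by
    have h2 := (Scheme.ΓSpecIso (CommRingCat.of ℂ)).hom_inv_id
    have h3 := congrArg (fun f => f.hom r) h2
    exact h3
  change (X.germToFunctionField V1.U).hom ((s.appLE ⊤ V1.U e).hom r) =
    (X.germToFunctionField ⊤).hom ((s.appTop).hom
      ((Scheme.ΓSpecIso (CommRingCat.of ℂ)).inv.hom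
        ((Scheme.ΓSpecIso (CommRingCat.of ℂ)).hom.hom r)))
  rw [h1]
  exact X.presheaf.germ_res_apply (homOfLE e) (genericPoint X) _ _

end S25

open S25 Pool.Agent.Helper25.DAF

/-- Row SMOOTH. -/
theorem st_SMOOTH : ST_SMOOTH := by
  intro X _ s _ _ x
  obtain ⟨U, hU, V, hV, hxV, e, hstd⟩ := Smooth.exists_isStandardSmooth s x
  have hne : Nonempty V := ⟨⟨x, hxV⟩⟩
  obtain rfl : U = ⊤ := by
    refine Opens.ext (Set.eq_univ_of_forall fun p => ?_)
    have h1 : s x ∈ U := e hxV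
    have hsub : Subsingleton (PrimeSpectrum ℂ) := inferInstance
    have h2 : p = s x := hsub.elim p (s x)
    rw [h2]
    exact h1
  set V1 : Aff X := ⟨V, hV, hne⟩ with hV1
  refine ⟨V1, hxV, ?_⟩
  letI a1 : Algebra Γ(Spec (CommRingCat.of ℂ), ⊤) Γ(X, V) := (s.appLE ⊤ V e).hom.toAlgebra
  letI a2 : Algebra Γ(X, V) (FF s) := (ev s V1).toAlgebra
  letI a3 : Algebra Γ(Spec (CommRingCat.of ℂ), ⊤) (FF s) :=
    ((ev s V1).comp (s.appLE ⊤ V e).hom).toAlgebra
  haveI : IsScalarTower Γ(Spec (CommRingCat.of ℂ), ⊤) Γ(X, V) (FF s) :=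
    IsScalarTower.of_algebraMap_eq (fun _ => rfl)
  haveI : IsFractionRing Γ(X, V) (FF s) := functionField_isFractionRing_of_isAffineOpen X V hV
  haveI : Algebra.IsStandardSmooth Γ(Spec (CommRingCat.of ℂ), ⊤) Γ(X, V) := hstd
  obtain ⟨n, y, T, h1, h2, h3⟩ :=
    smooth_alg Γ(Spec (CommRingCat.of ℂ), ⊤) Γ(X, V) (FF s)
  -- constants
  have hc1 : ∀ r : Γ(Spec (CommRingCat.of ℂ), ⊤), algebraMap _ (FF s) r =
      algebraMap ℂ (FF s) ((Scheme.ΓSpecIso (CommRingCat.of ℂ)).hom.hom r) :=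
    fun r => const_eq s V1 e r
  have hc2 : ∀ c : ℂ, ∃ r : Γ(Spec (CommRingCat.of ℂ), ⊤),
      algebraMap ℂ (FF s) c = algebraMap _ (FF s) r := by
    intro c
    refine ⟨(Scheme.ΓSpecIso (CommRingCat.of ℂ)).inv.hom c, ?_⟩
    rw [hc1]
    congr 1
    have h4 := (Scheme.ΓSpecIso (CommRingCat.of ℂ)).inv_hom_id
    have h5 := congrArg (fun f => f.hom c) h4
    exact h5.symm
  have hT0 : ∀ (i : Fin n) (c : ℂ), T i (algebraMap ℂ (FF s) c) = 0 := by
    intro i c
    obtain ⟨r, hr⟩ := hc2 c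
    rw [hr]
    exact (T i).map_algebraMap r
  set t : Fin n → Module.End ℂ (FF s) := fun i =>
    { toFun := T i
      map_add' := fun a b => map_add (T i) a b
      map_smul' := fun c a => by
        rw [Algebra.smul_def, Derivation.leibniz, hT0, smul_zero, add_zero, RingHom.id_apply,
          Algebra.smul_def]
        rfl } with ht
  have htT : ∀ i a, t i a = T i a := fun _ _ => rfl
  have hev : ∀ b : Γ(X, V), algebraMap Γ(X, V) (FF s) b = ev s V1 b := fun _ => rfl
  refine ⟨n, t, fun i => ev s V1 (y i), fun i => ⟨fun a b => ?_, fun b hb => ?_⟩,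
    fun i => ⟨y i, rfl⟩, fun i j => ?_, fun d hd => ?_⟩
  · rw [htT, htT, htT, Derivation.leibniz]
    rfl
  · obtain ⟨b', rfl⟩ := hb
    obtain ⟨c, hc⟩ := h2 i b'
    exact ⟨c, hc.symm⟩
  · exact h1 i j
  · have hd0 : ∀ c : ℂ, d (algebraMap ℂ (FF s) c) = 0 := by
      intro c
      have h5 : d 1 = 0 := by
        have h6 := hd.1 1 1
        rw [mul_one, one_mul] at h6
        exact left_eq_add.1 h6
      rw [Algebra.algebraMap_eq_smul_one, map_smul, h5, smul_zero]
    let D : Derivation Γ(Spec (CommRingCat.of ℂ), ⊤) (FF s) (FF s) :=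
      Derivation.mk'
        { toFun := fun a => d a
          map_add' := fun a b => map_add d a b
          map_smul' := fun r a => by
            rw [Algebra.smul_def, hd.1, hc1, hd0, mul_zero, add_zero, RingHom.id_apply,
              Algebra.smul_def, hc1] }
        (fun a b => hd.1 a b)
    refine LinearMap.ext fun a => ?_
    have h6 := h3 D a
    rw [LinearMap.sum_apply]
    exact h6

end Pool.Agent.Helper15.DAF
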